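import Mathlib

/-!
# The reaping numbers `r_X` for `X ⊆ (0,1)`

For infinite `B ⊆ ω` let `d_B(A)` be the relative density of `A` in `B` (or `osc`), and for a set
`X ⊆ [0,1] ∪ {osc}` let `r_X` be the least size of a family `R` of infinite sets such that every
infinite-coinfinite `S` has `d_B(S) ∉ X` for some `B ∈ R`.

We prove in ZFC that `r_X = r_{(0,1)}` for every nonempty `X ⊆ (0,1)`; in particular
`r_{1/2} = r_{(0,1)}`.
-/

open Filter Topology Cardinal Set

namespace Pool.Agent.Results.MP_5d23e6_lc.ReapingInterval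

/-- `|A ∩ n|`, the number of elements of `A` below `n`. -/
noncomputable def cnt (A : Set ℕ) (n : ℕ) : ℕ := (A ∩ Set.Iio n).ncard

/-- The quotient `|A ∩ B ∩ n| / |B ∩ n|`. -/
noncomputable def ratio (B A : Set ℕ) (n : ℕ) : ℝ := (cnt (A ∩ B) n : ℝ) / (cnt B n : ℝ)

/-- The lower relative density of `A` in `B`. -/
noncomputable def lowerDensity (B A : Set ℕ) : ℝ := liminf (fun n => ratio B A n) atTop

/-- The upper relative density of `A` in `B`. -/
noncomputable def upperDensity (B A : Set ℕ) : ℝ := limsup (fun n => ratio B A n) atTop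

open Classical in
/-- The relative density `d_B(A)`: `some r` if the lower and the upper density are both `r`, and
`none` (which stands for `osc`) if they differ. -/
noncomputable def relDensity (B A : Set ℕ) : Option ℝ :=
  if lowerDensity B A = upperDensity B A then some (lowerDensity B A) else none

/-- `R` is a witness for `r_X`: a family of infinite sets such that every infinite-coinfinite `S`
has some `B ∈ R` with `d_B(S) ∉ X`. -/
def IsReapingFor (X : Set (Option ℝ)) (R : Set (Set ℕ)) : Prop :=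
  (∀ B ∈ R, B.Infinite) ∧ ∀ S : Set ℕ, S.Infinite → Sᶜ.Infinite → ∃ B ∈ R, relDensity B S ∉ X

/-- The `X`-reaping number `r_X`. -/
noncomputable def reaping (X : Set (Option ℝ)) : Cardinal.{0} :=
  sInf {κ : Cardinal.{0} | ∃ R : Set (Set ℕ), IsReapingFor X R ∧ #R = κ}

/-! ### Counting -/

lemma finite_inter (A : Set ℕ) (n : ℕ) : (A ∩ Set.Iio n).Finite :=
  (Set.finite_Iio n).subset Set.inter_subset_right

lemma cnt_mono {A B : Set ℕ} (h : A ⊆ B) (n : ℕ) : cnt A n ≤ cnt B n :=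
  Set.ncard_le_ncard (Set.inter_subset_inter_left _ h) (finite_inter B n)

lemma cnt_le (A : Set ℕ) (n : ℕ) : cnt A n ≤ n := by
  have h : cnt A n ≤ (Set.Iio n).ncard :=
    Set.ncard_le_ncard Set.inter_subset_right (Set.finite_Iio n)
  have h2 : (Set.Iio n).ncard = n := by
    rw [← Finset.coe_Iio, Set.ncard_coe_finset]; simp
  omega

lemma cnt_mono_right (A : Set ℕ) {m n : ℕ} (h : m ≤ n) : cnt A m ≤ cnt A n :=
  Set.ncard_le_ncard (Set.inter_subset_inter_right _ (Set.Iio_subset_Iio h)) (finite_inter A n)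

lemma cnt_union_disjoint {A B : Set ℕ} (h : Disjoint A B) (n : ℕ) :
    cnt (A ∪ B) n = cnt A n + cnt B n := by
  unfold cnt
  rw [Set.union_inter_distrib_right]
  exact Set.ncard_union_eq (h.mono Set.inter_subset_left Set.inter_subset_left)
    (finite_inter A n) (finite_inter B n)

lemma cnt_zero (A : Set ℕ) : cnt A 0 = 0 := by
  have := cnt_le A 0; omega

lemma cnt_succ_mem {A : Set ℕ} {n : ℕ} (h : n ∈ A) : cnt A (n + 1) = cnt A n + 1 := by
  unfold cnt
  have : A ∩ Set.Iio (n + 1) = insert n (A ∩ Set.Iio n) := by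
    ext m
    simp only [Set.mem_inter_iff, Set.mem_Iio, Set.mem_insert_iff]
    constructor
    · rintro ⟨h1, h2⟩
      rcases Nat.lt_succ_iff_lt_or_eq.mp h2 with h3 | h3
      · exact Or.inr ⟨h1, h3⟩
      · exact Or.inl h3
    · rintro (h1 | ⟨h1, h2⟩)
      · subst h1; exact ⟨h, Nat.lt_succ_self _⟩
      · exact ⟨h1, Nat.lt_succ_of_lt h2⟩
  rw [this, Set.ncard_insert_of_notMem (by simp) (finite_inter A n)]

lemma cnt_succ_not_mem {A : Set ℕ} {n : ℕ} (h : n ∉ A) : cnt A (n + 1) = cnt A n := by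
  unfold cnt
  congr 1
  ext m
  simp only [Set.mem_inter_iff, Set.mem_Iio]
  constructor
  · rintro ⟨h1, h2⟩
    refine ⟨h1, ?_⟩
    rcases Nat.lt_succ_iff_lt_or_eq.mp h2 with h3 | h3
    · exact h3
    · subst h3; exact absurd h1 h
  · rintro ⟨h1, h2⟩
    exact ⟨h1, Nat.lt_succ_of_lt h2⟩

/-- If `U` and `V` agree on `[a, b)` then the counts up to `b` differ by at most `a`. -/
lemma cnt_le_of_agree {U V : Set ℕ} {a b : ℕ} (h : ∀ m, a ≤ m → m < b → m ∈ U → m ∈ V) :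
    cnt U b ≤ cnt V b + a := by
  have h1 : U ∩ Set.Iio b ⊆ (V ∩ Set.Iio b) ∪ Set.Iio a := by
    rintro m ⟨hm, hb⟩
    by_cases hma : m < a
    · exact Or.inr hma
    · exact Or.inl ⟨h m (not_lt.mp hma) hb hm, hb⟩
  have h2 := Set.ncard_le_ncard h1 ((finite_inter V b).union (Set.finite_Iio a))
  have h3 := Set.ncard_union_le (V ∩ Set.Iio b) (Set.Iio a)
  have h4 : (Set.Iio a).ncard = a := by
    rw [← Finset.coe_Iio, Set.ncard_coe_finset]; simp
  unfold cnt
  omega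

lemma tendsto_cnt {A : Set ℕ} (hA : A.Infinite) : Tendsto (cnt A) atTop atTop := by
  refine tendsto_atTop_atTop.mpr fun b => ?_
  obtain ⟨t, ht, hcard⟩ := hA.exists_subset_card_eq b
  obtain ⟨N, hN⟩ := t.bddAbove
  refine ⟨N + 1, fun n hn => ?_⟩
  have h1 : (t : Set ℕ) ⊆ A ∩ Set.Iio n := fun m hm =>
    ⟨ht hm, lt_of_lt_of_le (Nat.lt_succ_of_le (hN hm)) hn⟩
  have h2 := Set.ncard_le_ncard h1 (finite_inter A n)
  rw [Set.ncard_coe_finset, hcard] at h2
  exact h2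

lemma infinite_of_tendsto_cnt {A : Set ℕ} (h : Tendsto (cnt A) atTop atTop) : A.Infinite := by
  intro hfin
  obtain ⟨n, hn⟩ := (h.eventually (eventually_ge_atTop (A.ncard + 1))).exists
  have : cnt A n ≤ A.ncard := Set.ncard_le_ncard Set.inter_subset_left hfin
  omega

lemma ratio_nonneg (B A : Set ℕ) (n : ℕ) : 0 ≤ ratio B A n := by
  unfold ratio; positivity

lemma ratio_le_one (B A : Set ℕ) (n : ℕ) : ratio B A n ≤ 1 := by
  unfold ratio
  apply div_le_one_of_le₀ _ (by positivity)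
  exact_mod_cast cnt_mono Set.inter_subset_right n

/-- `A` has relative density `r` in `B`. -/
def HasDens (B A : Set ℕ) (r : ℝ) : Prop := Tendsto (fun n => ratio B A n) atTop (𝓝 r)

lemma relDensity_eq_some {B A : Set ℕ} {r : ℝ} : relDensity B A = some r ↔ HasDens B A r := by
  have hb1 : IsBoundedUnder (· ≤ ·) atTop (fun n => ratio B A n) :=
    isBoundedUnder_of ⟨1, ratio_le_one B A⟩
  have hb2 : IsBoundedUnder (· ≥ ·) atTop (fun n => ratio B A n) :=
    isBoundedUnder_of ⟨0, ratio_nonneg B A⟩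
  constructor
  · intro h
    unfold relDensity at h
    split_ifs at h with h1
    have h2 : lowerDensity B A = r := by simpa using h
    exact tendsto_of_liminf_eq_limsup h2 (by rw [← h2]; exact h1.symm) hb1 hb2
  · intro h
    have h1 : lowerDensity B A = r := h.liminf_eq
    have h2 : upperDensity B A = r := h.limsup_eq
    unfold relDensity
    rw [h1, h2]
    simp

lemma HasDens.unique {B A : Set ℕ} {r s : ℝ} (h : HasDens B A r) (h' : HasDens B A s) : r = s :=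
  tendsto_nhds_unique h h'

/-! ### Mixing two sets on fast growing blocks -/

/-- The mixture of `R0` and `R1` along the blocks `[f k, f (k+1))`. -/
def mixAlong (f : ℕ → ℕ) (R : ℕ → Set ℕ) : Set ℕ :=
  {m | ∃ k, f k ≤ m ∧ m < f (k + 1) ∧ m ∈ R k}

lemma mem_mixAlong {f : ℕ → ℕ} (hf : StrictMono f) {R : ℕ → Set ℕ} {k m : ℕ} (h1 : f k ≤ m)
    (h2 : m < f (k + 1)) : m ∈ mixAlong f R ↔ m ∈ R k := by
  constructor
  · rintro ⟨j, hj1, hj2, hj3⟩
    have : j = k := by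
      have a1 : j < k + 1 := hf.lt_iff_lt.mp (lt_of_le_of_lt hj1 h2)
      have a2 : k < j + 1 := hf.lt_iff_lt.mp (lt_of_le_of_lt h1 hj2)
      omega
    exact this ▸ hj3
  · intro h
    exact ⟨k, h1, h2, h⟩

lemma exists_fast {R : ℕ → Set ℕ} (hR : ∀ k, (R k).Infinite) :
    ∃ f : ℕ → ℕ, StrictMono f ∧ ∀ k, (k + 2) * (f k + 1) ≤ cnt (R k) (f (k + 1)) := by
  have step : ∀ k n : ℕ, ∃ m, n < m ∧ (k + 2) * (n + 1) ≤ cnt (R k) m := by
    intro k n
    have h1 := (tendsto_cnt (hR k)).eventually (eventually_ge_atTop ((k + 2) * (n + 1)))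
    obtain ⟨m, hm1, hm2⟩ := (h1.and (eventually_gt_atTop n)).exists
    exact ⟨m, hm2, hm1⟩
  choose g hg1 hg2 using step
  let f : ℕ → ℕ := fun k => Nat.rec 0 (fun k n => g k n) k
  have hf : ∀ k, f (k + 1) = g k (f k) := fun k => rfl
  refine ⟨f, strictMono_nat_of_lt_succ fun k => ?_, fun k => ?_⟩
  · rw [hf]; exact hg1 k (f k)
  · rw [hf]; exact hg2 k (f k)

/-- The key estimate: at the end of the `k`-th block the relative density in the mixture is
close to the relative density in `R k`. -/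
lemma ratio_mix {f : ℕ → ℕ} (hf : StrictMono f) {R : ℕ → Set ℕ}
    (hfast : ∀ k, (k + 2) * (f k + 1) ≤ cnt (R k) (f (k + 1))) (S : Set ℕ) (k : ℕ) :
    |ratio (mixAlong f R) S (f (k + 1)) - ratio (R k) S (f (k + 1))| ≤ 2 / (k + 1) := by
  set N := f (k + 1) with hN
  set M := mixAlong f R with hM
  have e1 : cnt M N ≤ cnt (R k) N + f k := cnt_le_of_agree fun m h1 h2 h3 =>
    (mem_mixAlong hf h1 h2).mp h3
  have e2 : cnt (R k) N ≤ cnt M N + f k := cnt_le_of_agree fun m h1 h2 h3 =>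
    (mem_mixAlong hf h1 h2).mpr h3
  have e3 : cnt (S ∩ M) N ≤ cnt (S ∩ R k) N + f k := cnt_le_of_agree fun m h1 h2 h3 =>
    ⟨h3.1, (mem_mixAlong hf h1 h2).mp h3.2⟩
  have e4 : cnt (S ∩ R k) N ≤ cnt (S ∩ M) N + f k := cnt_le_of_agree fun m h1 h2 h3 =>
    ⟨h3.1, (mem_mixAlong hf h1 h2).mpr h3.2⟩
  have e5 : cnt (S ∩ R k) N ≤ cnt (R k) N := cnt_mono Set.inter_subset_right _
  have e6 := hfast k
  unfold ratio
  rw [← hN] at e6
  -- pass to reals
  have hb : (0 : ℝ) < cnt (R k) N := by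
    have : 0 < cnt (R k) N := lt_of_lt_of_le (by positivity) e6
    exact_mod_cast this
  have hnat : (k + 1) * (f k + 1) ≤ cnt M N := by
    have : (k + 2) * (f k + 1) = (k + 1) * (f k + 1) + (f k + 1) := by ring
    omega
  have hb' : (0 : ℝ) < cnt M N := by
    have : 0 < cnt M N := lt_of_lt_of_le (by positivity) hnat
    exact_mod_cast this
  rw [div_sub_div _ _ hb'.ne' hb.ne', abs_div, abs_of_pos (mul_pos hb' hb)]
  rw [div_le_div_iff₀ (mul_pos hb' hb) (by positivity)]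
  have r1 : (cnt M N : ℝ) ≤ cnt (R k) N + f k := by exact_mod_cast e1
  have r2 : (cnt (R k) N : ℝ) ≤ cnt M N + f k := by exact_mod_cast e2
  have r3 : (cnt (S ∩ M) N : ℝ) ≤ cnt (S ∩ R k) N + f k := by exact_mod_cast e3
  have r4 : (cnt (S ∩ R k) N : ℝ) ≤ cnt (S ∩ M) N + f k := by exact_mod_cast e4
  have r5 : (cnt (S ∩ R k) N : ℝ) ≤ cnt (R k) N := by exact_mod_cast e5
  have r6 : ((k : ℝ) + 1) * (f k + 1) ≤ cnt M N := by exact_mod_cast hnat
  set a' : ℝ := (cnt (S ∩ M) N : ℝ)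
  set a : ℝ := (cnt (S ∩ R k) N : ℝ)
  set b' : ℝ := (cnt M N : ℝ)
  set b : ℝ := (cnt (R k) N : ℝ)
  have ha : 0 ≤ a := Nat.cast_nonneg _
  have hfk : (0 : ℝ) ≤ f k := Nat.cast_nonneg _
  have key : |a' * b - b' * a| ≤ 2 * (f k * b) := by
    rw [abs_le]
    constructor
    · nlinarith [mul_le_mul_of_nonneg_right r4 hb.le, mul_le_mul_of_nonneg_left r1 ha,
        mul_le_mul_of_nonneg_left r5 hfk]
    · nlinarith [mul_le_mul_of_nonneg_right r3 hb.le, mul_le_mul_of_nonneg_left r2 ha,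
        mul_le_mul_of_nonneg_left r5 hfk]
  have hk : (0 : ℝ) ≤ (k : ℝ) + 1 := by positivity
  calc |a' * b - b' * a| * ((k : ℝ) + 1) ≤ (2 * (f k * b)) * ((k : ℝ) + 1) :=
        mul_le_mul_of_nonneg_right key hk
    _ ≤ 2 * (b' * b) := by
        have : ((k : ℝ) + 1) * f k ≤ b' := by nlinarith
        nlinarith [mul_le_mul_of_nonneg_right this hb.le]

/-- Alternate between two sets. -/
def alt (R0 R1 : Set ℕ) (k : ℕ) : Set ℕ := if Even k then R0 else R1

/-- For two infinite sets there is an infinite set in which no `S` whose relative densities in the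
two sets exist and differ has a relative density. -/
lemma exists_mix {R0 R1 : Set ℕ} (h0 : R0.Infinite) (h1 : R1.Infinite) :
    ∃ R : Set ℕ, R.Infinite ∧ ∀ (S : Set ℕ) (α β γ : ℝ), HasDens R0 S α → HasDens R1 S β →
      HasDens R S γ → α = β := by
  have hinf : ∀ k, (alt R0 R1 k).Infinite := by
    intro k; unfold alt; split_ifs <;> assumption
  obtain ⟨f, hf, hfast⟩ := exists_fast hinf
  refine ⟨mixAlong f (alt R0 R1), ?_, ?_⟩
  · -- infinite: counts at the ends of blocks are unbounded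
    intro hfin
    set c := (mixAlong f (alt R0 R1)).ncard with hc
    have h1 : cnt (mixAlong f (alt R0 R1)) (f (c + 1)) ≤ c :=
      Set.ncard_le_ncard Set.inter_subset_left hfin
    have e2 : cnt (alt R0 R1 c) (f (c + 1)) ≤ cnt (mixAlong f (alt R0 R1)) (f (c + 1)) + f c :=
      cnt_le_of_agree fun m h1 h2 h3 => (mem_mixAlong hf h1 h2).mpr h3
    have e3 := hfast c
    have : (c + 2) * (f c + 1) = (c + 1) * (f c + 1) + (f c + 1) := by ring
    have h4 : (c + 1) ≤ (c + 1) * (f c + 1) := Nat.le_mul_of_pos_right _ (by positivity)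
    omega
  · intro S α β γ hα hβ hγ
    have hfa : Tendsto (fun k => f (k + 1)) atTop atTop :=
      hf.tendsto_atTop.comp (tendsto_add_atTop_nat 1)
    have hγ' : Tendsto (fun k => ratio (mixAlong f (alt R0 R1)) S (f (k + 1))) atTop (𝓝 γ) :=
      hγ.comp hfa
    have herr : Tendsto (fun k : ℕ => ratio (alt R0 R1 k) S (f (k + 1))) atTop (𝓝 γ) := by
      have hz : Tendsto (fun k : ℕ => (2 : ℝ) / (k + 1)) atTop (𝓝 0) := by
        have := (tendsto_one_div_add_atTop_nhds_zero_nat (𝕜 := ℝ)).const_mul 2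
        simp only [mul_one_div, mul_zero] at this
        exact this
      have hd : Tendsto (fun k : ℕ => ratio (mixAlong f (alt R0 R1)) S (f (k + 1)) -
          ratio (alt R0 R1 k) S (f (k + 1))) atTop (𝓝 0) :=
        squeeze_zero_norm (fun k => by
          rw [Real.norm_eq_abs]; exact ratio_mix hf hfast S k) hz
      have := hγ'.sub hd
      simpa using this
    have hev : Tendsto (fun j : ℕ => 2 * j) atTop atTop :=
      tendsto_id.const_mul_atTop' (by norm_num)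
    have hod : Tendsto (fun j : ℕ => 2 * j + 1) atTop atTop :=
      (tendsto_add_atTop_nat 1).comp hev
    have t1 : Tendsto (fun j : ℕ => ratio R0 S (f (2 * j + 1))) atTop (𝓝 γ) := by
      have := herr.comp hev
      refine this.congr fun j => ?_
      simp [alt]
    have t2 : Tendsto (fun j : ℕ => ratio R1 S (f (2 * j + 1 + 1))) atTop (𝓝 γ) := by
      have := herr.comp hod
      refine this.congr fun j => ?_
      have : ¬ Even (2 * j + 1) := by simp
      simp [alt, this]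
    have t1' : Tendsto (fun j : ℕ => ratio R0 S (f (2 * j + 1))) atTop (𝓝 α) :=
      hα.comp (hf.tendsto_atTop.comp hod)
    have t2' : Tendsto (fun j : ℕ => ratio R1 S (f (2 * j + 1 + 1))) atTop (𝓝 β) :=
      hβ.comp (hf.tendsto_atTop.comp ((tendsto_add_atTop_nat 1).comp hod))
    rw [tendsto_nhds_unique t1' t1, tendsto_nhds_unique t2' t2]

/-! ### Densities of intersections -/

lemma HasDens.inter {R C T : Set ℕ} {c t : ℝ} (h1 : HasDens R C c) (h2 : HasDens (R ∩ C) T t) :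
    HasDens R (C ∩ T) (c * t) := by
  have : Tendsto (fun n => ratio R C n * ratio (R ∩ C) T n) atTop (𝓝 (c * t)) := h1.mul h2
  refine this.congr fun n => ?_
  unfold ratio
  have e1 : C ∩ R = R ∩ C := Set.inter_comm _ _
  have e2 : T ∩ (R ∩ C) = C ∩ T ∩ R := by
    ext m; simp only [Set.mem_inter_iff]; tauto
  rw [e1, e2]
  by_cases h0 : (cnt (R ∩ C) n : ℝ) = 0
  · have h3 : cnt (C ∩ T ∩ R) n ≤ cnt (R ∩ C) n :=
      cnt_mono (show C ∩ T ∩ R ⊆ R ∩ C from fun m hm => ⟨hm.2, hm.1.1⟩) n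
    have h4 : (cnt (C ∩ T ∩ R) n : ℝ) = 0 := by
      have h5 : cnt (R ∩ C) n = 0 := by exact_mod_cast h0
      have : cnt (C ∩ T ∩ R) n = 0 := by omega
      exact_mod_cast this
    rw [h0, h4]; simp
  · field_simp

lemma HasDens.sub {R A B : Set ℕ} {a b : ℝ} (hA : HasDens R A a) (hB : HasDens R B b)
    (h : B ⊆ A) : HasDens R (A \ B) (a - b) := by
  have : Tendsto (fun n => ratio R A n - ratio R B n) atTop (𝓝 (a - b)) := Tendsto.sub hA hB
  refine this.congr fun n => ?_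
  unfold ratio
  have e : A ∩ R = (A \ B) ∩ R ∪ B ∩ R := by
    ext m
    simp only [Set.mem_inter_iff, Set.mem_union, Set.mem_sdiff]
    constructor
    · rintro ⟨h1, h2⟩
      by_cases hb : m ∈ B
      · exact Or.inr ⟨hb, h2⟩
      · exact Or.inl ⟨⟨h1, hb⟩, h2⟩
    · rintro (⟨⟨h1, _⟩, h2⟩ | ⟨h1, h2⟩)
      · exact ⟨h1, h2⟩
      · exact ⟨h h1, h2⟩
  have hd : Disjoint ((A \ B) ∩ R) (B ∩ R) :=
    Set.disjoint_left.mpr fun m hm hm' => hm.1.2 hm'.1
  rw [e, cnt_union_disjoint hd]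
  push_cast
  ring

lemma HasDens.add {R A B : Set ℕ} {a b : ℝ} (hA : HasDens R A a) (hB : HasDens R B b)
    (h : Disjoint A B) : HasDens R (A ∪ B) (a + b) := by
  have : Tendsto (fun n => ratio R A n + ratio R B n) atTop (𝓝 (a + b)) := Tendsto.add hA hB
  refine this.congr fun n => ?_
  unfold ratio
  rw [Set.union_inter_distrib_right, cnt_union_disjoint
    (h.mono Set.inter_subset_left Set.inter_subset_left)]
  push_cast
  ring

lemma hasDens_empty (R : Set ℕ) : HasDens R ∅ 0 := by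
  have : (fun n => ratio R ∅ n) = fun _ => (0 : ℝ) := by
    funext n; simp [ratio, cnt]
  unfold HasDens
  rw [this]; exact tendsto_const_nhds

lemma hasDens_univ {R : Set ℕ} (hR : R.Infinite) : HasDens R Set.univ 1 := by
  have : ∀ᶠ n in atTop, (1 : ℝ) = ratio R Set.univ n := by
    filter_upwards [(tendsto_cnt hR).eventually (eventually_gt_atTop 0)] with n hn
    unfold ratio
    rw [Set.univ_inter]
    have : (cnt R n : ℝ) ≠ 0 := by positivity
    field_simp
  exact (tendsto_congr' this).mp tendsto_const_nhds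

lemma HasDens.infinite_inter {R C : Set ℕ} {c : ℝ} (hR : R.Infinite) (h : HasDens R C c)
    (hc : 0 < c) : (R ∩ C).Infinite := by
  intro hfin
  have h1 : Tendsto (fun n => ratio R C n) atTop (𝓝 0) := by
    have hb : ∀ n, ratio R C n ≤ ((R ∩ C).ncard : ℝ) / (cnt R n : ℝ) := by
      intro n
      unfold ratio
      have : cnt (C ∩ R) n ≤ (R ∩ C).ncard := by
        rw [Set.inter_comm]
        exact Set.ncard_le_ncard Set.inter_subset_left hfin
      gcongr
    have ht : Tendsto (fun n => ((R ∩ C).ncard : ℝ) / (cnt R n : ℝ)) atTop (𝓝 0) :=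
      Tendsto.div_atTop tendsto_const_nhds
        (tendsto_natCast_atTop_atTop.comp (tendsto_cnt hR))
    exact squeeze_zero (ratio_nonneg R C) hb ht
  have := h.unique h1
  linarith

lemma HasDens.infinite_diff {R C : Set ℕ} {c : ℝ} (hR : R.Infinite) (h : HasDens R C c)
    (hc : c < 1) : (R \ C).Infinite := by
  have h1 : HasDens R (Set.univ \ C) (1 - c) := (hasDens_univ hR).sub h (Set.subset_univ _)
  have h2 := h1.infinite_inter hR (by linarith)
  refine h2.mono ?_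
  rintro m ⟨h3, h4⟩
  exact ⟨h3, h4.2⟩

/-! ### The limit construction -/

/-- A stage of the construction: a set `A` of density `a`, a reserve `C` of density `c`, uniformly
over the family `𝓡`, with `a ≤ ρ ≤ a + c`. -/
structure Stage (𝓡 : Set (Set ℕ)) (ρ : ℝ) where
  A : Set ℕ
  C : Set ℕ
  a : ℝ
  c : ℝ
  disj : Disjoint A C
  hA : ∀ R ∈ 𝓡, HasDens R A a
  hC : ∀ R ∈ 𝓡, HasDens R C c
  hc : 0 < c
  h1 : a ≤ ρ
  h2 : ρ ≤ a + c

lemma stage_step {𝓡 : Set (Set ℕ)} {ρ ε : ℝ} (h𝓡 : ∀ R ∈ 𝓡, R.Infinite) (hε : 0 < ε)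
    (hyp : ∀ C : Set ℕ, (∀ R ∈ 𝓡, (R ∩ C).Infinite) →
      ∃ (T : Set ℕ) (τ : ℝ), ε ≤ τ ∧ τ ≤ 1 - ε ∧ ∀ R ∈ 𝓡, HasDens (R ∩ C) T τ)
    (s : Stage 𝓡 ρ) :
    ∃ s' : Stage 𝓡 ρ, s.A ⊆ s'.A ∧ s'.A ∪ s'.C ⊆ s.A ∪ s.C ∧ s'.c ≤ (1 - ε) * s.c := by
  obtain ⟨T, τ, hτ1, hτ2, hT⟩ := hyp s.C fun R hR => (s.hC R hR).infinite_inter (h𝓡 R hR) s.hc
  have hCT : ∀ R ∈ 𝓡, HasDens R (s.C ∩ T) (s.c * τ) := fun R hR => (s.hC R hR).inter (hT R hR)
  have hCT' : ∀ R ∈ 𝓡, HasDens R (s.C \ (s.C ∩ T)) (s.c - s.c * τ) := fun R hR =>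
    (s.hC R hR).sub (hCT R hR) Set.inter_subset_left
  have hcpos := s.hc
  by_cases hcase : s.a + s.c * τ ≤ ρ
  · refine ⟨⟨s.A ∪ (s.C ∩ T), s.C \ (s.C ∩ T), s.a + s.c * τ, s.c - s.c * τ, ?_, ?_, hCT',
      ?_, hcase, ?_⟩, ?_, ?_, ?_⟩
    · rw [Set.disjoint_left]
      rintro m (hm | hm) hm'
      · exact Set.disjoint_left.mp s.disj hm hm'.1
      · exact hm'.2 hm
    · intro R hR
      exact (s.hA R hR).add (hCT R hR) (s.disj.mono_right Set.inter_subset_left)
    · nlinarith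
    · have := s.h2; linarith
    · exact Set.subset_union_left
    · rintro m ((hm | hm) | hm)
      · exact Or.inl hm
      · exact Or.inr hm.1
      · exact Or.inr hm.1
    · change s.c - s.c * τ ≤ (1 - ε) * s.c
      nlinarith
  · refine ⟨⟨s.A, s.C ∩ T, s.a, s.c * τ, ?_, s.hA, hCT, ?_, s.h1, ?_⟩, ?_, ?_, ?_⟩
    · exact s.disj.mono_right Set.inter_subset_left
    · have : 0 < τ := by linarith
      positivity
    · exact (not_le.mp hcase).le
    · exact subset_rfl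
    · exact Set.union_subset_union_right _ Set.inter_subset_left
    · change s.c * τ ≤ (1 - ε) * s.c
      nlinarith

lemma exists_limit {𝓡 : Set (Set ℕ)} {ρ ε : ℝ} (h𝓡 : ∀ R ∈ 𝓡, R.Infinite) (hε : 0 < ε)
    (hρ0 : 0 ≤ ρ) (hρ1 : ρ ≤ 1)
    (hyp : ∀ C : Set ℕ, (∀ R ∈ 𝓡, (R ∩ C).Infinite) →
      ∃ (T : Set ℕ) (τ : ℝ), ε ≤ τ ∧ τ ≤ 1 - ε ∧ ∀ R ∈ 𝓡, HasDens (R ∩ C) T τ) :
    ∃ S : Set ℕ, ∀ R ∈ 𝓡, HasDens R S ρ := by
  by_cases hne : 𝓡.Nonempty
  swap
  · rw [Set.not_nonempty_iff_eq_empty] at hne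
    exact ⟨∅, fun R hR => by rw [hne] at hR; exact absurd hR (Set.notMem_empty R)⟩
  have hεle : ε ≤ 1 := by
    obtain ⟨T, τ, h1, h2, _⟩ := hyp Set.univ fun R hR => by
      rw [Set.inter_univ]; exact h𝓡 R hR
    linarith
  let s0 : Stage 𝓡 ρ := ⟨∅, Set.univ, 0, 1, by simp, fun R _ => hasDens_empty R,
    fun R hR => hasDens_univ (h𝓡 R hR), one_pos, hρ0, by linarith⟩
  choose next hn1 hn2 hn3 using stage_step (ρ := ρ) h𝓡 hε hyp
  let s : ℕ → Stage 𝓡 ρ := fun n => Nat.rec s0 (fun _ t => next t) n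
  have hs : ∀ n, s (n + 1) = next (s n) := fun n => rfl
  have hmonoA : Monotone fun n => (s n).A := monotone_nat_of_le_succ fun n => by
    change (s n).A ⊆ (s (n + 1)).A
    rw [hs]; exact hn1 _
  have hantiU : Antitone fun n => (s n).A ∪ (s n).C := antitone_nat_of_succ_le fun n => by
    change (s (n + 1)).A ∪ (s (n + 1)).C ⊆ (s n).A ∪ (s n).C
    rw [hs]; exact hn2 _
  have hc : ∀ n, (s n).c ≤ (1 - ε) ^ n := by
    intro n
    induction n with
    | zero => exact le_of_eq (by simp [s, s0])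
    | succ n ih =>
      rw [hs]
      calc (next (s n)).c ≤ (1 - ε) * (s n).c := hn3 _
        _ ≤ (1 - ε) * (1 - ε) ^ n := by
            apply mul_le_mul_of_nonneg_left ih; linarith
        _ = (1 - ε) ^ (n + 1) := by ring
  have hpow : Tendsto (fun n : ℕ => (1 - ε) ^ n) atTop (𝓝 0) :=
    tendsto_pow_atTop_nhds_zero_of_lt_one (by linarith) (by linarith)
  refine ⟨⋃ n, (s n).A, fun R hR => ?_⟩
  rw [HasDens, Metric.tendsto_atTop]
  intro δ hδ
  obtain ⟨n, hn⟩ := (hpow.eventually (gt_mem_nhds (half_pos hδ))).exists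
  have hcn : (s n).c < δ / 2 := lt_of_le_of_lt (hc n) hn
  have hsub1 : (s n).A ⊆ ⋃ n, (s n).A := Set.subset_iUnion (fun n => (s n).A) n
  have hsub2 : (⋃ n, (s n).A) ⊆ (s n).A ∪ (s n).C := by
    intro m hm
    obtain ⟨j, hj⟩ := Set.mem_iUnion.mp hm
    rcases le_total j n with h | h
    · exact Or.inl (hmonoA h hj)
    · exact hantiU h (Or.inl hj)
  have hAC : HasDens R ((s n).A ∪ (s n).C) ((s n).a + (s n).c) :=
    ((s n).hA R hR).add ((s n).hC R hR) (s n).disj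
  have hmonor : ∀ {U V : Set ℕ}, U ⊆ V → ∀ k, ratio R U k ≤ ratio R V k := by
    intro U V hUV k
    unfold ratio
    have : cnt (U ∩ R) k ≤ cnt (V ∩ R) k := cnt_mono (Set.inter_subset_inter_left _ hUV) k
    gcongr
  have ev1 : ∀ᶠ k in atTop, (s n).a - δ / 2 < ratio R (s n).A k :=
    ((s n).hA R hR).eventually (lt_mem_nhds (by linarith))
  have ev2 : ∀ᶠ k in atTop, ratio R ((s n).A ∪ (s n).C) k < (s n).a + (s n).c + δ / 2 :=
    hAC.eventually (gt_mem_nhds (by linarith))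
  obtain ⟨K, hK⟩ := eventually_atTop.mp (ev1.and ev2)
  refine ⟨K, fun k hk => ?_⟩
  obtain ⟨q1, q2⟩ := hK k hk
  have q3 := hmonor hsub1 k
  have q4 := hmonor hsub2 k
  have q5 := (s n).h1
  have q6 := (s n).h2
  rw [Real.dist_eq, abs_lt]
  constructor <;> linarith

/-! ### Finite families -/

/-- For a finite family there is a set which has density `ρ` in every member. -/
lemma exists_dens_of_finite {𝓡 : Set (Set ℕ)} (hfin : 𝓡.Finite) (h𝓡 : ∀ R ∈ 𝓡, R.Infinite)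
    {ρ : ℝ} (hρ0 : 0 ≤ ρ) (hρ1 : ρ ≤ 1) : ∃ S : Set ℕ, ∀ R ∈ 𝓡, HasDens R S ρ := by
  classical
  have : Finite 𝓡 := hfin
  have : Fintype (Set 𝓡) := Fintype.ofFinite _
  let f : ℕ → Set 𝓡 := fun m => {R | m ∈ (R : Set ℕ)}
  let F : Set 𝓡 → Set ℕ := fun x => f ⁻¹' {x}
  let S : Set ℕ := {m | ⌊ρ * cnt (F (f m)) m⌋ < ⌊ρ * cnt (F (f m)) (m + 1)⌋}
  have hfloor : ∀ c : ℕ, ⌊ρ * (c + 1 : ℕ)⌋ = ⌊ρ * c⌋ ∨ ⌊ρ * (c + 1 : ℕ)⌋ = ⌊ρ * c⌋ + 1 := by
    intro c
    have h1 : ρ * c ≤ ρ * (c + 1 : ℕ) := by push_cast; nlinarith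
    have h2 : ρ * (c + 1 : ℕ) ≤ ρ * c + 1 := by push_cast; nlinarith
    have h3 : ⌊ρ * c⌋ ≤ ⌊ρ * (c + 1 : ℕ)⌋ := Int.floor_le_floor h1
    have h4 : ⌊ρ * (c + 1 : ℕ)⌋ ≤ ⌊ρ * c⌋ + 1 := by
      rw [← Int.floor_add_one]; exact Int.floor_le_floor h2
    omega
  have hcount : ∀ x : Set 𝓡, ∀ n : ℕ, (cnt (S ∩ F x) n : ℤ) = ⌊ρ * cnt (F x) n⌋ := by
    intro x n
    induction n with
    | zero => simp [cnt_zero]
    | succ n ih =>
      by_cases hx : n ∈ F x
      · have hfx : f n = x := hx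
        by_cases hS : n ∈ S
        · rw [cnt_succ_mem (show n ∈ S ∩ F x from ⟨hS, hx⟩), cnt_succ_mem hx]
          have hS' : ⌊ρ * cnt (F x) n⌋ < ⌊ρ * cnt (F x) (n + 1)⌋ := by
            have := hS
            simp only [S, Set.mem_ofPred_eq, hfx] at this
            exact this
          rw [cnt_succ_mem hx] at hS'
          rcases hfloor (cnt (F x) n) with h | h
          · rw [h] at hS'; exact absurd hS' (lt_irrefl _)
          · rw [h]; push_cast; rw [ih]
        · rw [cnt_succ_not_mem (show n ∉ S ∩ F x from fun h => hS h.1), ih, cnt_succ_mem hx]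
          have hS' : ¬ ⌊ρ * cnt (F x) n⌋ < ⌊ρ * cnt (F x) (n + 1)⌋ := by
            have := hS
            simp only [S, Set.mem_ofPred_eq, hfx] at this
            exact this
          rw [cnt_succ_mem hx] at hS'
          rcases hfloor (cnt (F x) n) with h | h
          · rw [h]
          · rw [h] at hS'; omega
      · rw [cnt_succ_not_mem (show n ∉ S ∩ F x from fun h => hx h.2), ih, cnt_succ_not_mem hx]
  refine ⟨S, fun R hR => ?_⟩
  -- `R` is the union of the atoms `F x` with `R ∈ x`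
  let U : Finset (Set 𝓡) := Finset.univ.filter fun x => (⟨R, hR⟩ : 𝓡) ∈ x
  have hV : ∀ (P : Set ℕ) (n : ℕ) (V : Finset (Set 𝓡)),
      cnt (P ∩ f ⁻¹' (V : Set (Set 𝓡))) n = ∑ x ∈ V, cnt (P ∩ F x) n := by
    intro P n V
    induction V using Finset.induction_on with
    | empty => simp [cnt]
    | insert x V hx ih =>
      rw [Finset.sum_insert hx, ← ih]
      have e : P ∩ f ⁻¹' ((insert x V : Finset (Set 𝓡)) : Set (Set 𝓡)) =
          (P ∩ F x) ∪ (P ∩ f ⁻¹' (V : Set (Set 𝓡))) := by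
        ext m
        simp only [Finset.coe_insert, Set.mem_inter_iff, Set.mem_preimage, Set.mem_insert_iff,
          Set.mem_union, F, Set.mem_singleton_iff]
        tauto
      rw [e]
      refine cnt_union_disjoint (Set.disjoint_left.mpr ?_) n
      rintro m ⟨_, h1⟩ ⟨_, h2⟩
      have h3 : f m = x := h1
      have h4 : f m ∈ (V : Set (Set 𝓡)) := h2
      rw [h3] at h4
      exact hx h4
  have hRe : R = f ⁻¹' (U : Set (Set 𝓡)) := by
    ext m
    simp [U, f]
  have hS1 : ∀ n, (cnt (S ∩ R) n : ℤ) = ∑ x ∈ U, ⌊ρ * cnt (F x) n⌋ := by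
    intro n
    have := hV S n U
    rw [← hRe] at this
    rw [this]
    push_cast
    exact Finset.sum_congr rfl fun x _ => hcount x n
  have hS2 : ∀ n, (cnt R n : ℝ) = ∑ x ∈ U, (cnt (F x) n : ℝ) := by
    intro n
    have := hV Set.univ n U
    rw [← hRe] at this
    simp only [Set.univ_inter] at this
    rw [this]
    push_cast
    rfl
  have hdiff : ∀ n, |(cnt (S ∩ R) n : ℝ) - ρ * cnt R n| ≤ U.card := by
    intro n
    have h1 : (cnt (S ∩ R) n : ℝ) = ∑ x ∈ U, ((⌊ρ * cnt (F x) n⌋ : ℤ) : ℝ) := by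
      have := hS1 n
      have h2 : ((cnt (S ∩ R) n : ℤ) : ℝ) = ((∑ x ∈ U, ⌊ρ * cnt (F x) n⌋ : ℤ) : ℝ) := by
        rw [this]
      push_cast at h2
      exact h2
    rw [h1, hS2, Finset.mul_sum, ← Finset.sum_sub_distrib]
    refine (Finset.abs_sum_le_sum_abs _ _).trans ?_
    have : ∀ x ∈ U, |((⌊ρ * cnt (F x) n⌋ : ℤ) : ℝ) - ρ * cnt (F x) n| ≤ 1 := by
      intro x _
      have h3 := Int.floor_le (ρ * cnt (F x) n)
      have h4 := Int.lt_floor_add_one (ρ * cnt (F x) n)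
      rw [abs_le]
      constructor <;> linarith
    calc ∑ x ∈ U, |((⌊ρ * cnt (F x) n⌋ : ℤ) : ℝ) - ρ * cnt (F x) n| ≤ ∑ x ∈ U, (1 : ℝ) :=
          Finset.sum_le_sum this
      _ = U.card := by simp
  have hR' := h𝓡 R hR
  have ht : Tendsto (fun n => (U.card : ℝ) / (cnt R n : ℝ)) atTop (𝓝 0) :=
    Tendsto.div_atTop tendsto_const_nhds (tendsto_natCast_atTop_atTop.comp (tendsto_cnt hR'))
  have hd : Tendsto (fun n => ratio R S n - ρ) atTop (𝓝 0) := by
    refine squeeze_zero_norm' ?_ ht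
    filter_upwards [(tendsto_cnt hR').eventually (eventually_gt_atTop 0)] with n hn
    have hpos : (0 : ℝ) < cnt R n := by exact_mod_cast hn
    have : ratio R S n - ρ = ((cnt (S ∩ R) n : ℝ) - ρ * cnt R n) / cnt R n := by
      unfold ratio
      field_simp
    rw [this, norm_div, Real.norm_eq_abs, Real.norm_eq_abs, abs_of_pos hpos]
    exact div_le_div_of_nonneg_right (hdiff n) hpos.le
  have := hd.add_const ρ
  simpa [HasDens] using this

/-! ### The main argument -/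

/-- The set of real values `(0,1)`, as values of the relative density. -/
def openUnit : Set (Option ℝ) := some '' Set.Ioo (0 : ℝ) 1

lemma reaping_set_nonempty {X : Set (Option ℝ)} (hX : X ⊆ openUnit) :
    {κ : Cardinal.{0} | ∃ R : Set (Set ℕ), IsReapingFor X R ∧ #R = κ}.Nonempty := by
  refine ⟨_, {B : Set ℕ | B.Infinite}, ⟨fun B hB => hB, fun S hS _ => ⟨S, hS, ?_⟩⟩, rfl⟩
  have h1 : HasDens S S 1 := by
    have := hasDens_univ hS
    refine this.congr fun n => ?_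
    unfold ratio
    rw [Set.univ_inter, Set.inter_self]
  intro h
  obtain ⟨r, hr, hr'⟩ := hX h
  rw [relDensity_eq_some.mpr h1] at hr'
  have : r = 1 := by simpa using hr'
  rw [this] at hr
  exact lt_irrefl _ hr.2

lemma exists_reaping {X : Set (Option ℝ)} (hX : X ⊆ openUnit) :
    ∃ R : Set (Set ℕ), IsReapingFor X R ∧ #R = reaping X :=
  csInf_mem (reaping_set_nonempty hX)

lemma reaping_le {X : Set (Option ℝ)} {R : Set (Set ℕ)} (h : IsReapingFor X R) :
    reaping X ≤ #R := csInf_le' ⟨R, h, rfl⟩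

lemma reaping_mono {X Y : Set (Option ℝ)} (hXY : X ⊆ Y) (hY : Y ⊆ openUnit) :
    reaping X ≤ reaping Y := by
  obtain ⟨R, hR, hc⟩ := exists_reaping hY
  rw [← hc]
  refine reaping_le ⟨hR.1, fun S h1 h2 => ?_⟩
  obtain ⟨B, hB, hB'⟩ := hR.2 S h1 h2
  exact ⟨B, hB, fun h => hB' (hXY h)⟩

lemma reaping_openUnit_le {ρ : ℝ} (hρ0 : 0 < ρ) (hρ1 : ρ < 1) :
    reaping openUnit ≤ reaping {some ρ} := by
  have hsub : {some ρ} ⊆ openUnit := by
    rintro _ rfl
    exact ⟨ρ, ⟨hρ0, hρ1⟩, rfl⟩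
  obtain ⟨𝓡, h𝓡, hcard⟩ := exists_reaping hsub
  by_contra hlt
  push Not at hlt
  -- it suffices to find a set of density `ρ` in every member
  suffices hS : ∃ S : Set ℕ, ∀ R ∈ 𝓡, HasDens R S ρ by
    obtain ⟨S, hS⟩ := hS
    have hne : 𝓡.Nonempty := by
      -- the evens are infinite and coinfinite
      have he : {n : ℕ | Even n}.Infinite := by
        refine Set.infinite_of_injective_forall_mem (f := fun n : ℕ => 2 * n)
          (fun a b h => by simpa using h) fun n => ?_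
        simp
      have he' : {n : ℕ | Even n}ᶜ.Infinite := by
        refine Set.infinite_of_injective_forall_mem (f := fun n : ℕ => 2 * n + 1)
          (fun a b h => by simpa using h) fun n => ?_
        simp
      obtain ⟨B, hB, _⟩ := h𝓡.2 _ he he'
      exact ⟨B, hB⟩
    obtain ⟨R0, hR0⟩ := hne
    have hi1 : S.Infinite :=
      ((hS R0 hR0).infinite_inter (h𝓡.1 R0 hR0) hρ0).mono Set.inter_subset_right
    have hi2 : Sᶜ.Infinite := by
      refine ((hS R0 hR0).infinite_diff (h𝓡.1 R0 hR0) hρ1).mono ?_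
      exact fun m hm => hm.2
    obtain ⟨B, hB, hB'⟩ := h𝓡.2 S hi1 hi2
    exact hB' (by rw [relDensity_eq_some.mpr (hS B hB)]; rfl)
  rcases lt_or_ge #𝓡 ℵ₀ with hfin | hinf
  · exact exists_dens_of_finite (Cardinal.lt_aleph0_iff_set_finite.mp hfin) h𝓡.1 hρ0.le hρ1.le
  -- for small families there are sets with relative densities in `(0,1)`
  have small : ∀ 𝓢 : Set (Set ℕ), (∀ B ∈ 𝓢, B.Infinite) → #𝓢 ≤ #𝓡 →
      ∃ S : Set ℕ, ∀ B ∈ 𝓢, ∃ r : ℝ, 0 < r ∧ r < 1 ∧ HasDens B S r := by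
    intro 𝓢 h𝓢 hc
    by_contra hno
    have : IsReapingFor openUnit 𝓢 := by
      refine ⟨h𝓢, fun S _ _ => ?_⟩
      by_contra hno'
      push Not at hno'
      refine hno ⟨S, fun B hB => ?_⟩
      obtain ⟨r, hr, hr'⟩ := hno' B hB
      exact ⟨r, hr.1, hr.2, relDensity_eq_some.mp hr'.symm⟩
    have h1 := reaping_le this
    have h2 : reaping openUnit ≤ #𝓡 := h1.trans hc
    rw [hcard] at h2
    exact absurd h2 (not_le.mpr hlt)
  -- constant densities
  choose! mix hmix1 hmix2 using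
    fun (R0 R1 : Set ℕ) (h0 : R0.Infinite) (h1 : R1.Infinite) => exists_mix h0 h1
  have const : ∀ 𝓢 : Set (Set ℕ), (∀ B ∈ 𝓢, B.Infinite) → #𝓢 ≤ #𝓡 →
      ∃ (S : Set ℕ) (r : ℝ), 0 < r ∧ r < 1 ∧ ∀ B ∈ 𝓢, HasDens B S r := by
    intro 𝓢 h𝓢 hc
    by_cases hne : 𝓢.Nonempty
    swap
    · rw [Set.not_nonempty_iff_eq_empty] at hne
      refine ⟨∅, 1 / 2, by norm_num, by norm_num, fun B hB => ?_⟩
      rw [hne] at hB
      exact absurd hB (Set.notMem_empty B)
    obtain ⟨B0, hB0⟩ := hne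
    let 𝓣 : Set (Set ℕ) := 𝓢 ∪ Set.range fun p : 𝓢 × 𝓢 => mix p.1 p.2
    have h𝓣 : ∀ B ∈ 𝓣, B.Infinite := by
      rintro B (hB | ⟨p, rfl⟩)
      · exact h𝓢 B hB
      · exact hmix1 _ _ (h𝓢 _ p.1.2) (h𝓢 _ p.2.2)
    have hc𝓣 : #𝓣 ≤ #𝓡 := by
      refine (Cardinal.mk_union_le _ _).trans ?_
      have h1 : #(Set.range fun p : 𝓢 × 𝓢 => mix p.1 p.2) ≤ #𝓡 := by
        refine Cardinal.mk_range_le.trans ?_
        rw [Cardinal.mk_prod]
        simp only [Cardinal.lift_id]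
        exact (mul_le_mul' hc hc).trans (Cardinal.mul_eq_self hinf).le
      exact (add_le_add hc h1).trans (Cardinal.add_eq_self hinf).le
    obtain ⟨S, hS⟩ := small 𝓣 h𝓣 hc𝓣
    obtain ⟨r, hr0, hr1, hr⟩ := hS B0 (Or.inl hB0)
    refine ⟨S, r, hr0, hr1, fun B hB => ?_⟩
    obtain ⟨s, _, _, hs⟩ := hS B (Or.inl hB)
    obtain ⟨t, _, _, ht⟩ := hS (mix B0 B) (Or.inr ⟨(⟨B0, hB0⟩, ⟨B, hB⟩), rfl⟩)
    have : r = s := hmix2 B0 B (h𝓢 B0 hB0) (h𝓢 B hB) S r s t hr hs ht
    rw [this]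
    exact hs
  -- uniform bound
  have unif : ∃ ε : ℝ, 0 < ε ∧ ∀ 𝓢 : Set (Set ℕ), (∀ B ∈ 𝓢, B.Infinite) → #𝓢 ≤ #𝓡 →
      ∃ (S : Set ℕ) (r : ℝ), ε ≤ r ∧ r ≤ 1 - ε ∧ ∀ B ∈ 𝓢, HasDens B S r := by
    by_contra hno
    push Not at hno
    choose! 𝓢 h1 h2 h3 using fun (n : ℕ) => hno (1 / ((n : ℝ) + 1)) (by positivity)
    have hU : #(⋃ n, 𝓢 n) ≤ #𝓡 := by
      refine (Cardinal.mk_iUnion_le _).trans ?_
      have hsup : (⨆ n, #(𝓢 n)) ≤ #𝓡 := ciSup_le' h2
      calc #ℕ * ⨆ n, #(𝓢 n) ≤ #𝓡 * #𝓡 := by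
            refine mul_le_mul' ?_ hsup
            rw [Cardinal.mk_nat]; exact hinf
        _ = #𝓡 := Cardinal.mul_eq_self hinf
    obtain ⟨S, r, hr0, hr1, hr⟩ := const (⋃ n, 𝓢 n) (by
      intro B hB
      obtain ⟨n, hn⟩ := Set.mem_iUnion.mp hB
      exact h1 n B hn) hU
    obtain ⟨n, hn⟩ := exists_nat_one_div_lt (lt_min hr0 (sub_pos.mpr hr1))
    have hn1 := (lt_min_iff.mp hn).1
    have hn2 := (lt_min_iff.mp hn).2
    obtain ⟨B, hB, hB'⟩ := h3 n S r hn1.le (by linarith)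
    exact hB' (hr B (Set.mem_iUnion.mpr ⟨n, hB⟩))
  obtain ⟨ε, hε, hunif⟩ := unif
  refine exists_limit h𝓡.1 hε hρ0.le hρ1.le fun C hC => ?_
  obtain ⟨T, τ, h1, h2, h3⟩ := hunif ((fun R => R ∩ C) '' 𝓡)
    (by rintro _ ⟨R, hR, rfl⟩; exact hC R hR) Cardinal.mk_image_le
  exact ⟨T, τ, h1, h2, fun R hR => h3 _ ⟨R, hR, rfl⟩⟩

/-- In ZFC, `r_X = r_{(0,1)}` for every nonempty set `X` of reals in `(0,1)`. In particular
`r_{1/2} = r_{(0,1)}`, so `r_{1/2} < r_{(0,1)}` is not consistent. -/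
theorem result :
    reaping {some (1 / 2 : ℝ)} = reaping (some '' Set.Ioo (0 : ℝ) 1) ∧
    ∀ X : Set ℝ, X.Nonempty → X ⊆ Set.Ioo (0 : ℝ) 1 →
      reaping (some '' X) = reaping (some '' Set.Ioo (0 : ℝ) 1) := by
  have main : ∀ X : Set ℝ, X.Nonempty → X ⊆ Set.Ioo (0 : ℝ) 1 →
      reaping (some '' X) = reaping (some '' Set.Ioo (0 : ℝ) 1) := by
    rintro X ⟨ρ, hρ⟩ hX
    apply le_antisymm
    · exact reaping_mono (Set.image_mono hX) subset_rfl
    · refine (reaping_openUnit_le (hX hρ).1 (hX hρ).2).trans ?_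
      refine reaping_mono ?_ (Set.image_mono hX)
      rintro _ rfl
      exact ⟨ρ, hρ, rfl⟩
  refine ⟨?_, main⟩
  have := main {1 / 2} ⟨1 / 2, rfl⟩ (by
    rintro _ rfl
    constructor <;> norm_num)
  rwa [Set.image_singleton] at this

end Pool.Agent.Results.MP_5d23e6_lc.ReapingInterval
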